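import Pool.Agent.Helper70.HS.Final

/-! Kakeya sets with a sticky family of lines; the segment may be anywhere on the line. -/

namespace Pool.Agent.Helper70.HS

open Finset

theorem dimH_seg_shift {s : Set ℝ} (a : ℝ) (h : Set.Icc a (a + 1) ⊆ s) : 1 ≤ dimH s := by
  have h1 : dimH (Set.Icc a (a + 1)) = 1 := by
    have := Real.dimH_of_nonempty_interior (E := ℝ) (s := Set.Icc a (a + 1)) (by
      rw [interior_Icc]
      exact ⟨a + 1 / 2, by linarith, by linarith⟩)
    simpa using this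
  rw [← h1]
  exact dimH_mono h

/-- Kakeya sets with a sticky family of lines: every line contains a unit segment of `K` -/
theorem fin_kakeya_shift (hfin : ST_FIN2) (hsph : ST_SPH) (m : ℕ) (hm : 1 ≤ m) (hgap : GapH m)
    (L : Set (EuclideanSpace ℝ (Fin (m + 1)) × EuclideanSpace ℝ (Fin (m + 1))))
    (K : Set (EuclideanSpace ℝ (Fin (m + 1)))) (hp : PackLE m L)
    (hK : ∀ e : EuclideanSpace ℝ (Fin (m + 1)), ‖e‖ = 1 → ∃ p, (p, e) ∈ L ∧
      ∃ a : ℝ, ∀ t : ℝ, a ≤ t → t ≤ a + 1 → p + t • e ∈ K) :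
    dimH K = (m + 1 : ℕ) := by
  refine le_antisymm ?_ ?_
  · refine le_trans (dimH_mono (Set.subset_univ K)) ?_
    rw [Real.dimH_univ_eq_finrank, finrank_euclideanSpace_fin]
  · have hm0 : (0 : ℝ) < m := by exact_mod_cast hm
    set L' : Set (EuclideanSpace ℝ (Fin (m + 1)) × EuclideanSpace ℝ (Fin (m + 1))) :=
      {l | l ∈ L ∧ ‖l.2‖ = 1 ∧ ∃ a : ℝ, ∀ t : ℝ, a ≤ t → t ≤ a + 1 → l.1 + t • l.2 ∈ K} with hL'
    have h1 := fin_exact hfin m m hgap hm0 L' K (fun l hl => hl.2.1) (packLE_mono hp (fun l hl => hl.1)) (by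
      refine le_trans (hsph m) (dimH_mono ?_)
      intro e he
      obtain ⟨p, hp1, hp2⟩ := hK e he
      exact ⟨(p, e), ⟨hp1, he, hp2⟩, rfl⟩)
      (fun l hl => by
        obtain ⟨a, ha⟩ := hl.2.2
        exact dimH_seg_shift a (fun t ht => ha t ht.1 ht.2))
    refine le_trans (le_of_eq ?_) h1
    have : ((m : ℝ) + 1) = ((m + 1 : ℕ) : ℝ) := by push_cast; ring
    rw [this, ENNReal.ofReal_natCast]

end Pool.Agent.Helper70.HS
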